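import Mathlib
import Pool.Graph.R_seed8.H791R2.RS.Final

/-!
Project RSF (helper575): the factor of the project RS (helper791, library of earlier runs) is
injective. Statements of the parts.
-/

set_option autoImplicit false

open MeasureTheory Filter Set Topology
open scoped InnerProductSpace ENNReal

namespace Pool.Agent.H575.RSF

open Pool.Agent.H791R2.RS (Y E mu H IsO IsM InM opS opS' th th')

/-- LIM: a limit of linear contractions of `B(G)` along an ultrafilter, in the weak operator
topology. PROOF: for fixed `x v w` the numbers `⟪w, Φ n x v⟫` lie in the closed ball of radius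
`‖w‖ ‖x‖ ‖v‖` of `ℂ`, which is compact, so they converge along the ultrafilter. The limit is
linear in `v` and `x`, conjugate linear in `w` and bounded by `‖w‖ ‖x‖ ‖v‖`; the operator `Ψ x` is
given by the Frechet-Riesz representation theorem. -/
def S_LIM : Prop := ∀ (G : Type) [NormedAddCommGroup G] [InnerProductSpace ℂ G] [CompleteSpace G]
  (Φ : ℕ → (G →L[ℂ] G) →ₗ[ℂ] (G →L[ℂ] G)), (∀ n x, ‖Φ n x‖ ≤ ‖x‖) →
  ∃ Ψ : (G →L[ℂ] G) →ₗ[ℂ] (G →L[ℂ] G), (∀ x, ‖Ψ x‖ ≤ ‖x‖) ∧
    ∀ x v w, Tendsto (fun n => ⟪w, Φ n x v⟫_ℂ) (hyperfilter ℕ : Filter ℕ) (𝓝 ⟪w, Ψ x v⟫_ℂ)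

/-- PAR: the block diagonal part of an operator. PROOF: the vectors `P i (x (P i v))` are pairwise
orthogonal, so the square of the norm of their sum is `∑ ‖P i x P i v‖ ^ 2 ≤ ‖x‖ ^ 2 ∑ ‖P i v‖ ^ 2`
and `∑ ‖P i v‖ ^ 2 = ‖v‖ ^ 2` (all by `inner` calculations with the adjoints). -/
def S_PAR : Prop := ∀ (G : Type) [NormedAddCommGroup G] [InnerProductSpace ℂ G] [CompleteSpace G]
  (ι : Type) [Fintype ι] (P : ι → (G →L[ℂ] G)), (∀ i, star (P i) = P i) →
  (∀ i, P i * P i = P i) → (∀ i j, i ≠ j → P i * P j = 0) → ∑ i, P i = 1 →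
  ∀ x : G →L[ℂ] G, ‖∑ i, P i * x * P i‖ ≤ ‖x‖

/-- AVG: averages over the powers of a unitary. PROOF: the powers of a unitary have norm at most
one; `U F = F U` up to the two boundary terms. -/
def S_AVG : Prop := ∀ (G : Type) [NormedAddCommGroup G] [InnerProductSpace ℂ G] [CompleteSpace G]
  (U : G →L[ℂ] G), star U * U = 1 → U * star U = 1 → ∀ (N : ℕ) (x : G →L[ℂ] G),
  ‖((N : ℂ) + 1)⁻¹ • ∑ n ∈ Finset.range (N + 1), U ^ n * x * (star U) ^ n‖ ≤ ‖x‖ ∧
  ‖U * (((N : ℂ) + 1)⁻¹ • ∑ n ∈ Finset.range (N + 1), U ^ n * x * (star U) ^ n) -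
    (((N : ℂ) + 1)⁻¹ • ∑ n ∈ Finset.range (N + 1), U ^ n * x * (star U) ^ n) * U‖ ≤
      2 * ‖x‖ / ((N : ℝ) + 1)

/-- The points whose coordinates with indices in `[-k, k]`, cut at `k`, are those of `c`. -/
def cyl (k : ℕ) (c : ℤ → ℕ) : Set Y := {y | ∀ i ∈ Finset.Icc (-(k : ℤ)) k, min (y i) k = c i}

open Classical in
/-- GEN: commuting with the indicators of all cylinders is enough. PROOF: let `D` be the set of
all measurable `S` such that `x` commutes with the multiplication by the indicator of `S` (it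
exists and is unique: `S_OPS`; uniqueness: two operators `A` with `IsO A a g` agree on every `f`).
`D` is closed under complements and countable disjoint unions (strong convergence of the indicator
multiplications: dominated convergence) and contains the pi-system of the finite intersections of
the sets `{y | y i = a}` (such a set is a finite disjoint union of sets `cyl k c`, for `k` large,
`k > a`, since `min (y i) k` for `|i| ≤ k` determines whether `y i = a`; finitely many `c`
suffice), which generates the sigma-algebra. So `x` commutes with the indicators of all measurable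
sets, with the simple functions, and by uniform approximation with all bounded ones. -/
def S_GEN : Prop := ∀ x : H →L[ℂ] H, (∀ (k : ℕ) (c : ℤ → ℕ) (A : H →L[ℂ] H),
    IsO A (fun y => (if y ∈ cyl k c then (1 : ℂ) else 0) • (1 : E →L[ℂ] E)) id → A * x = x * A) →
  ∀ A, IsM A → A * x = x * A

open Classical in
/-- EK: the block diagonal parts for the partitions into cylinders. PROOF (`hP : S_PAR`,
`hO : S_OPS`): for fixed `k` the sets `cyl k c`, with `c` running through the finitely many
functions with `c i ≤ k` for `|i| ≤ k` and `c i = 0` for the other `i` (take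
`ι = Finset.Icc (-k) k → Fin (k + 1)` and extend by `0`), form a partition of `Y`. The
multiplications `P c` by their indicators (`S_OPS`, second part) satisfy the hypotheses of `S_PAR`.
Put `Φ x = ∑ c, P c * x * P c`. For `j ≤ k` the set `cyl j c'` is a union of sets `cyl k c`
(`min (y i) j = min (min (y i) k) j`), so the multiplication by its indicator is a sum of some of
the `P c`, and commutes with `Φ x`. If `x` commutes with all multiplications, `Φ x = x`. -/
def S_EK : Prop := ∀ k : ℕ, ∃ Φ : (H →L[ℂ] H) →ₗ[ℂ] (H →L[ℂ] H), (∀ x, ‖Φ x‖ ≤ ‖x‖) ∧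
  (∀ x, (∀ A, IsM A → A * x = x * A) → Φ x = x) ∧
  ∀ x, ∀ j ≤ k, ∀ (c : ℤ → ℕ) (A : H →L[ℂ] H),
    IsO A (fun y => (if y ∈ cyl j c then (1 : ℂ) else 0) • (1 : E →L[ℂ] E)) id →
      A * Φ x = Φ x * A

/-- NRM: the unitary `U` normalises the multiplications. PROOF: (`IsO A (φ • 1) id`, `U f y =
opS (f (th y))`, `star U f y = opS' (f (th' y))` by `S_ADJ`): `star U * A * U` is the multiplication
by `φ ∘ th'` and `U * A * star U` the one by `φ ∘ th`. -/
def S_NRM : Prop := ∀ U : H →L[ℂ] H, IsO U (fun _ => opS) th → ∀ A, IsM A →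
  IsM (star U * A * U) ∧ IsM (U * A * star U)

/-- INJ: there is a linear contraction of `B(H)` onto the factor which is the identity on it. -/
def S_INJ : Prop := ∃ Ψ : (H →L[ℂ] H) →ₗ[ℂ] (H →L[ℂ] H), (∀ x, ‖Ψ x‖ ≤ ‖x‖) ∧
  (∀ x, InM (Ψ x)) ∧ ∀ x, InM x → Ψ x = x

/-- The Hilbert space is separable. -/
def S_SEP : Prop := TopologicalSpace.SeparableSpace H

end Pool.Agent.H575.RSF
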