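import Mathlib
import Pool.Agent.H575.RSF.Stm

set_option autoImplicit false

open MeasureTheory Filter Set Topology
open scoped InnerProductSpace ENNReal ComplexConjugate

namespace Pool.Agent.H575.RSF

open Pool.Agent.H791R2.RS (Y E mu H IsO IsM InM opS opS' th th')

namespace H706EK

/-- `A` is the multiplication by `φ`. -/
def Mul (A : H →L[ℂ] H) (φ : Y → ℂ) : Prop := ∀ f : H, (A f : Y → E) =ᵐ[mu] fun y => φ y • (f : Y → E) y

theorem mul_iff (A : H →L[ℂ] H) (φ : Y → ℂ) :
    IsO A (fun y => φ y • (1 : E →L[ℂ] E)) id ↔ Mul A φ := Iff.rfl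

theorem mul_uniq {A B : H →L[ℂ] H} {φ ψ : Y → ℂ} (hA : Mul A φ) (hB : Mul B ψ)
    (h : ∀ y, φ y = ψ y) : A = B := by
  ext1 f
  refine Lp.ext ?_
  filter_upwards [hA f, hB f] with y h1 h2
  rw [h1, h2, h]

theorem mul_one : Mul 1 (fun _ => 1) := by
  intro f
  filter_upwards with y
  rw [one_smul]
  rfl

theorem mul_zero : Mul 0 (fun _ => 0) := by
  intro f
  have h : ((0 : H →L[ℂ] H) f) = 0 := rfl
  rw [h]
  filter_upwards [Lp.coeFn_zero E 2 mu] with y h1
  rw [h1, zero_smul]
  rfl

theorem mul_add {A B : H →L[ℂ] H} {φ ψ : Y → ℂ} (hA : Mul A φ) (hB : Mul B ψ) :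
    Mul (A + B) (fun y => φ y + ψ y) := by
  intro f
  have h : (A + B) f = A f + B f := rfl
  rw [h]
  filter_upwards [hA f, hB f, Lp.coeFn_add (A f) (B f)] with y h1 h2 h3
  rw [h3, Pi.add_apply, h1, h2, add_smul]

theorem mul_smul' {A : H →L[ℂ] H} {φ : Y → ℂ} (c : ℂ) (hA : Mul A φ) :
    Mul (c • A) (fun y => c * φ y) := by
  intro f
  have h : (c • A) f = c • A f := rfl
  rw [h]
  filter_upwards [hA f, Lp.coeFn_smul c (A f)] with y h1 h3
  rw [h3, Pi.smul_apply, h1, smul_smul]

theorem mul_mul {A B : H →L[ℂ] H} {φ ψ : Y → ℂ} (hA : Mul A φ) (hB : Mul B ψ) :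
    Mul (A * B) (fun y => φ y * ψ y) := by
  intro f
  have h : (A * B) f = A (B f) := rfl
  rw [h]
  filter_upwards [hA (B f), hB f] with y h1 h2
  rw [h1, h2, smul_smul]

theorem mul_sum {ι : Type} (s : Finset ι) (A : ι → H →L[ℂ] H) (φ : ι → Y → ℂ)
    (h : ∀ i, Mul (A i) (φ i)) : Mul (∑ i ∈ s, A i) (fun y => ∑ i ∈ s, φ i y) := by
  classical
  induction s using Finset.induction_on with
  | empty =>
    simp only [Finset.sum_empty]
    exact mul_zero
  | insert a s ha ih =>
    simp only [Finset.sum_insert ha]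
    exact mul_add (h a) ih

theorem mul_star {A : H →L[ℂ] H} {φ : Y → ℂ} (hA : Mul A φ) (hr : ∀ y, conj (φ y) = φ y) :
    star A = A := by
  symm
  rw [ContinuousLinearMap.star_eq_adjoint, ContinuousLinearMap.eq_adjoint_iff]
  intro f g
  rw [L2.inner_def, L2.inner_def]
  refine integral_congr_ae ?_
  filter_upwards [hA f, hA g] with y h1 h2
  rw [h1, h2, inner_smul_left, inner_smul_right, hr]

/-- The index set of the partition. -/
abbrev Ix (k : ℕ) : Type := (Finset.Icc (-(k : ℤ)) (k : ℤ) : Finset ℤ) → Fin (k + 1)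

/-- The part of a point. -/
def qq (k : ℕ) (y : Y) : Ix k := fun i => ⟨min (y i.1) k, Nat.lt_succ_of_le (min_le_right _ _)⟩

theorem meas_qq (k : ℕ) (c : Ix k) : MeasurableSet {y : Y | qq k y = c} := by
  have h : {y : Y | qq k y = c} = ⋂ i, {y : Y | min (y i.1) k = (c i : ℕ)} := by
    ext y
    simp only [Set.mem_ofPred_eq, mem_iInter]
    constructor
    · intro h i
      rw [← h]
      rfl
    · intro h
      funext i
      exact Fin.ext (h i)
  rw [h]
  refine MeasurableSet.iInter fun i => ?_
  have h2 : Measurable (fun y : Y => y i.1) := measurable_pi_apply _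
  exact h2 (MeasurableSet.of_discrete (s := {n : ℕ | min n k = (c i : ℕ)}))

end H706EK

open H706EK in
open Classical in
theorem ek (hP : S_PAR) (hO : Pool.Agent.H791R2.RS.S_OPS) : S_EK := by
  intro k
  have hex : ∀ c : Ix k, ∃ A : H →L[ℂ] H, Mul A (fun y => if qq k y = c then (1 : ℂ) else 0) := by
    intro c
    refine hO.2.1 (fun y => if qq k y = c then (1 : ℂ) else 0) 1 ?_ ?_
    · exact Measurable.ite (meas_qq k c) measurable_const measurable_const
    · intro y
      split_ifs <;> simp
  choose P hPm using hex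
  have hM : ∀ c, IsM (P c) := by
    intro c
    refine ⟨fun y => if qq k y = c then (1 : ℂ) else 0, 1, ?_, ?_, hPm c⟩
    · exact Measurable.ite (meas_qq k c) measurable_const measurable_const
    · intro y
      dsimp only
      split_ifs <;> simp
  have hstar : ∀ c, star (P c) = P c := by
    intro c
    refine mul_star (hPm c) fun y => ?_
    split_ifs <;> simp
  have hsq : ∀ c, P c * P c = P c := by
    intro c
    refine mul_uniq (mul_mul (hPm c) (hPm c)) (hPm c) fun y => ?_
    split_ifs <;> simp
  have hort : ∀ c d, c ≠ d → P c * P d = 0 := by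
    intro c d hcd
    refine mul_uniq (mul_mul (hPm c) (hPm d)) mul_zero fun y => ?_
    by_cases h : qq k y = c
    · rw [if_neg (fun h2 => hcd (h.symm.trans h2)), MulZeroClass.mul_zero]
    · rw [if_neg h, zero_mul]
  have hsum : ∑ c, P c = 1 := by
    refine mul_uniq (mul_sum Finset.univ P _ hPm) mul_one fun y => ?_
    rw [Finset.sum_ite_eq, if_pos (Finset.mem_univ _)]
  let Φ : (H →L[ℂ] H) →ₗ[ℂ] (H →L[ℂ] H) :=
    { toFun := fun x => ∑ c, P c * x * P c
      map_add' := by
        intro x y
        rw [← Finset.sum_add_distrib]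
        refine Finset.sum_congr rfl fun c _ => ?_
        rw [_root_.mul_add, add_mul]
      map_smul' := by
        intro r x
        rw [RingHom.id_apply, Finset.smul_sum]
        refine Finset.sum_congr rfl fun c _ => ?_
        rw [mul_smul_comm, smul_mul_assoc] }
  have hΦ : ∀ x, Φ x = ∑ c, P c * x * P c := fun _ => rfl
  refine ⟨Φ, ?_, ?_, ?_⟩
  · intro x
    rw [hΦ]
    exact hP H (Ix k) P hstar hsq hort hsum x
  · intro x hx
    rw [hΦ]
    calc ∑ c, P c * x * P c = ∑ c, x * P c := by
          refine Finset.sum_congr rfl fun c _ => ?_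
          rw [hx _ (hM c), mul_assoc, hsq]
      _ = x := by rw [← Finset.mul_sum, hsum, _root_.mul_one]
  · intro x j hj c A hA
    -- the indicator of `cyl j c` is a function of `qq k y`
    let F : Ix k → ℂ := fun d => if (∀ i : (Finset.Icc (-(k : ℤ)) (k : ℤ) : Finset ℤ),
      (i : ℤ) ∈ Finset.Icc (-(j : ℤ)) j → min (d i : ℕ) j = c i) then 1 else 0
    have hF : ∀ y, (if y ∈ cyl j c then (1 : ℂ) else 0) = F (qq k y) := by
      intro y
      have hiff : y ∈ cyl j c ↔ (∀ i : (Finset.Icc (-(k : ℤ)) (k : ℤ) : Finset ℤ),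
          (i : ℤ) ∈ Finset.Icc (-(j : ℤ)) j → min ((qq k y) i : ℕ) j = c i) := by
        have hmin : ∀ n : ℕ, min (min n k) j = min n j := by
          intro n
          rw [min_assoc, min_eq_right hj]
        constructor
        · intro h i hi
          change min (min (y i.1) k) j = c i
          rw [hmin]
          exact h i.1 hi
        · intro h i hi
          have hik : i ∈ Finset.Icc (-(k : ℤ)) (k : ℤ) := by
            rw [Finset.mem_Icc] at hi ⊢
            have : (j : ℤ) ≤ k := by exact_mod_cast hj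
            omega
          have h2 := h ⟨i, hik⟩ hi
          change min (min (y i) k) j = c i at h2
          rwa [hmin] at h2
      by_cases h : y ∈ cyl j c
      · rw [if_pos h]
        exact (if_pos (hiff.1 h)).symm
      · rw [if_neg h]
        exact (if_neg (fun h2 => h (hiff.2 h2))).symm
    have hA2 : A = ∑ d, F d • P d := by
      refine mul_uniq (φ := fun y => if y ∈ cyl j c then (1 : ℂ) else 0) hA
        (mul_sum Finset.univ (fun d => F d • P d) _ fun d => mul_smul' (F d) (hPm d)) fun y => ?_
      rw [hF]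
      simp only [mul_ite, _root_.mul_one, MulZeroClass.mul_zero]
      rw [Finset.sum_ite_eq, if_pos (Finset.mem_univ _)]
    have hl : ∀ d, A * P d = F d • P d := by
      intro d
      rw [hA2, Finset.sum_mul, Finset.sum_eq_single d]
      · rw [smul_mul_assoc, hsq]
      · intro e _ he
        rw [smul_mul_assoc, hort e d he, smul_zero]
      · intro h
        exact absurd (Finset.mem_univ d) h
    have hr : ∀ d, P d * A = F d • P d := by
      intro d
      rw [hA2, Finset.mul_sum, Finset.sum_eq_single d]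
      · rw [mul_smul_comm, hsq]
      · intro e _ he
        rw [mul_smul_comm, hort d e (Ne.symm he), smul_zero]
      · intro h
        exact absurd (Finset.mem_univ d) h
    rw [hΦ, Finset.mul_sum, Finset.sum_mul]
    refine Finset.sum_congr rfl fun d _ => ?_
    rw [← mul_assoc, ← mul_assoc, hl, mul_assoc (P d * x) (P d) A, hr, mul_smul_comm,
      smul_mul_assoc, smul_mul_assoc]

end Pool.Agent.H575.RSF
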