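import Mathlib
import Pool.Agent.H575.RSF.Stm

set_option autoImplicit false

open MeasureTheory Filter Set Topology
open scoped InnerProductSpace ENNReal

namespace Pool.Agent.H575.RSF

open Pool.Agent.H791R2.RS (Y E mu H IsO IsM InM opS opS' th th' S_OPS)

namespace GenH328

theorem inner_op {A : H →L[ℂ] H} {φ : Y → ℂ} (hA : IsO A (fun y => φ y • (1 : E →L[ℂ] E)) id)
    (w u : H) :
    ⟪w, A u⟫_ℂ = ∫ y, φ y * ⟪(w : Y → E) y, (u : Y → E) y⟫_ℂ ∂mu := by
  rw [L2.inner_def]
  refine integral_congr_ae ?_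
  filter_upwards [hA u] with y hy
  rw [hy]
  change ⟪(w : Y → E) y, φ y • ((u : Y → E) y)⟫_ℂ = _
  rw [inner_smul_right]

theorem cyl_eq (k : ℕ) (c : ℤ → ℕ) :
    cyl k c = ⋂ i ∈ Finset.Icc (-(k : ℤ)) k, (fun y : Y => min (y i) k) ⁻¹' {c i} := by
  ext y
  rw [Set.mem_iInter₂]
  exact Iff.rfl

theorem meas_cyl (k : ℕ) (c : ℤ → ℕ) : MeasurableSet (cyl k c) := by
  rw [cyl_eq]
  refine Finset.measurableSet_biInter _ fun i _ => ?_
  have h1 : Measurable (fun n : ℕ => min n k) := measurable_from_top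
  exact (h1.comp (measurable_pi_apply i)) (MeasurableSet.singleton _)

theorem pi_cyl : IsPiSystem {S : Set Y | ∃ (k : ℕ) (c : ℤ → ℕ), S = cyl k c} := by
  have key : ∀ (j k : ℕ) (c c' : ℤ → ℕ), j ≤ k → (cyl k c ∩ cyl j c').Nonempty →
      cyl k c ∩ cyl j c' = cyl k c := by
    intro j k c c' hjk hne
    obtain ⟨y, hy1, hy2⟩ := hne
    refine Set.inter_eq_left.2 fun z hz i hi => ?_
    have hi' : i ∈ Finset.Icc (-(k : ℤ)) k := by
      rw [Finset.mem_Icc] at hi ⊢
      omega
    have h1 := hy1 i hi'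
    have h2 := hy2 i hi
    have h3 := hz i hi'
    omega
  rintro S ⟨k, c, rfl⟩ S' ⟨j, c', rfl⟩ hne
  rcases le_total j k with h | h
  · exact ⟨k, c, key j k c c' h hne⟩
  · refine ⟨j, c', ?_⟩
    rw [Set.inter_comm] at hne ⊢
    exact key k j c' c h hne

theorem gen_cyl : (inferInstance : MeasurableSpace Y) =
    MeasurableSpace.generateFrom {S : Set Y | ∃ (k : ℕ) (c : ℤ → ℕ), S = cyl k c} := by
  apply le_antisymm
  · refine iSup_le fun i => ?_
    refine Measurable.comap_le ?_
    refine @measurable_to_countable' ℕ Y _ _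
      (MeasurableSpace.generateFrom {S : Set Y | ∃ (k : ℕ) (c : ℤ → ℕ), S = cyl k c}) _
      fun a => ?_
    -- the coordinate `i` has the value `a`
    obtain ⟨k, hka, hki⟩ : ∃ k : ℕ, a < k ∧ i ∈ Finset.Icc (-(k : ℤ)) k := by
      refine ⟨a + 1 + i.natAbs, by omega, ?_⟩
      rw [Finset.mem_Icc]
      constructor <;> omega
    classical
    have h1 : (fun y : Y => y i) ⁻¹' {a} =
        ⋃ (c : Finset.Icc (-(k : ℤ)) k → ℕ), ⋃ (_ : c ⟨i, hki⟩ = a),
          cyl k (fun j => if h : j ∈ Finset.Icc (-(k : ℤ)) k then c ⟨j, h⟩ else 0) := by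
      ext y
      simp only [Set.mem_preimage, Set.mem_singleton_iff, Set.mem_iUnion]
      constructor
      · intro hy
        refine ⟨fun j => min (y j) k, ?_, ?_⟩
        · change min (y i) k = a
          omega
        · intro j hj
          change _ = dite _ _ _
          rw [dif_pos hj]
      · rintro ⟨c, hc, hy⟩
        have h2 := hy i hki
        change min (y i) k = dite _ _ _ at h2
        rw [dif_pos hki, hc] at h2
        omega
    rw [h1]
    refine MeasurableSet.iUnion fun c => MeasurableSet.iUnion fun _ => ?_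
    exact MeasurableSpace.measurableSet_generateFrom ⟨k, _, rfl⟩
  · refine MeasurableSpace.generateFrom_le ?_
    rintro S ⟨k, c, rfl⟩
    exact meas_cyl k c

end GenH328

open GenH328 in
/-- GEN: commuting with the indicators of all cylinders is enough. -/
theorem gen (hO : S_OPS) : S_GEN := by
  classical
  intro x hx
  -- the function `F`
  have key : ∀ v w : H, ∀ᵐ y ∂mu, ⟪(w : Y → E) y, (x v : Y → E) y⟫_ℂ =
      ⟪((ContinuousLinearMap.adjoint x w : H) : Y → E) y, (v : Y → E) y⟫_ℂ := by
    intro v w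
    set w' : H := ContinuousLinearMap.adjoint x w with hw'
    have i1 : Integrable (fun y => ⟪(w : Y → E) y, (x v : Y → E) y⟫_ℂ) mu :=
      L2.integrable_inner w (x v)
    have i2 : Integrable (fun y => ⟪(w' : Y → E) y, (v : Y → E) y⟫_ℂ) mu :=
      L2.integrable_inner w' v
    have hF : Integrable (fun y => ⟪(w : Y → E) y, (x v : Y → E) y⟫_ℂ -
      ⟪(w' : Y → E) y, (v : Y → E) y⟫_ℂ) mu := i1.sub i2
    have huniv : ∫ y, (⟪(w : Y → E) y, (x v : Y → E) y⟫_ℂ -
        ⟪(w' : Y → E) y, (v : Y → E) y⟫_ℂ) ∂mu = 0 := by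
      rw [integral_sub i1 i2, ← L2.inner_def, ← L2.inner_def, hw',
        ContinuousLinearMap.adjoint_inner_left, sub_self]
    have hall : ∀ S : Set Y, MeasurableSet S →
        ∫ y in S, (⟪(w : Y → E) y, (x v : Y → E) y⟫_ℂ -
          ⟪(w' : Y → E) y, (v : Y → E) y⟫_ℂ) ∂mu = 0 := by
      intro S hS
      refine MeasurableSpace.induction_on_inter
        (C := fun S _ => ∫ y in S, (⟪(w : Y → E) y, (x v : Y → E) y⟫_ℂ -
          ⟪(w' : Y → E) y, (v : Y → E) y⟫_ℂ) ∂mu = 0) gen_cyl pi_cyl ?_ ?_ ?_ ?_ S hS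
      · simp
      · rintro t ⟨k, c, rfl⟩
        have hm := meas_cyl k c
        have hφ : Measurable (fun y : Y => if y ∈ cyl k c then (1 : ℂ) else 0) :=
          Measurable.ite hm measurable_const measurable_const
        obtain ⟨A, hA⟩ := hO.2.1 (fun y : Y => if y ∈ cyl k c then (1 : ℂ) else 0) 1 hφ (by
          intro y
          by_cases h : y ∈ cyl k c <;> simp [h])
        have hAx := hx k c A hA
        have e1 := inner_op hA w (x v)
        have e2 := inner_op hA w' v
        have e3 : ⟪w, A (x v)⟫_ℂ = ⟪w', A v⟫_ℂ := by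
          rw [hw', ContinuousLinearMap.adjoint_inner_left]
          have := congrArg (fun B : H →L[ℂ] H => B v) hAx
          exact congrArg (fun u => ⟪w, u⟫_ℂ) this
        have e4 : ∀ f : Y → ℂ, ∫ y, (if y ∈ cyl k c then (1 : ℂ) else 0) * f y ∂mu =
            ∫ y in cyl k c, f y ∂mu := by
          intro f
          rw [← integral_indicator hm]
          refine integral_congr_ae (Eventually.of_forall fun y => ?_)
          by_cases h : y ∈ cyl k c
          · simp [h]
          · simp [h]
        rw [e4] at e1 e2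
        rw [integral_sub i1.integrableOn i2.integrableOn, ← e1, ← e2, e3, sub_self]
      · intro t ht h
        have h2 := integral_add_compl ht hF
        rw [h, zero_add, huniv] at h2
        exact h2
      · intro f hd hf h
        rw [integral_iUnion hf hd hF.integrableOn]
        simp only [h, tsum_zero]
    have h0 := hF.ae_eq_zero_of_forall_setIntegral_eq_zero (fun s hs _ => hall s hs)
    filter_upwards [h0] with y hy
    exact sub_eq_zero.1 hy
  rintro A ⟨φ, C, hφ, hC, hA⟩
  ext1 v
  refine ext_inner_left ℂ fun w => ?_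
  change ⟪w, A (x v)⟫_ℂ = ⟪w, x (A v)⟫_ℂ
  rw [inner_op hA, ← ContinuousLinearMap.adjoint_inner_left x, inner_op hA]
  refine integral_congr_ae ?_
  filter_upwards [key v w] with y hy
  rw [hy]

end Pool.Agent.H575.RSF
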