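import Mathlib
import Pool.Agent.H575.RSF.Stm

/-! Project RSF (helper575), part LIM (helper337). -/

set_option autoImplicit false

open MeasureTheory Filter Set Topology
open scoped InnerProductSpace ENNReal

namespace Pool.Agent.H575.RSF

namespace Lim337

/-- bounded sequences of complex numbers converge along an ultrafilter -/
lemma lim_ex (f : ℕ → ℂ) (C : ℝ) (hf : ∀ n, ‖f n‖ ≤ C) :
    ∃ z : ℂ, Tendsto f (hyperfilter ℕ : Filter ℕ) (𝓝 z) ∧ ‖z‖ ≤ C := by
  have h1 : ((Ultrafilter.map f (hyperfilter ℕ) : Ultrafilter ℂ) : Filter ℂ) ≤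
      𝓟 (Metric.closedBall (0 : ℂ) C) := by
    rw [Ultrafilter.coe_map, le_principal_iff]
    change f ⁻¹' (Metric.closedBall (0 : ℂ) C) ∈ (hyperfilter ℕ : Filter ℕ)
    have : f ⁻¹' (Metric.closedBall (0 : ℂ) C) = Set.univ := by
      ext n
      simp [hf n]
    rw [this]
    exact univ_mem
  obtain ⟨z, hz1, hz2⟩ := (isCompact_closedBall (0 : ℂ) C).ultrafilter_le_nhds _ h1
  exact ⟨z, hz2, by simpa using hz1⟩

variable (G : Type) [NormedAddCommGroup G] [InnerProductSpace ℂ G] [CompleteSpace G]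

/-- the weak limit of a bounded sequence of vectors -/
lemma vec_ex (a : ℕ → G) (C : ℝ) (ha : ∀ n, ‖a n‖ ≤ C) :
    ∃ u : G, ‖u‖ ≤ C ∧ ∀ w, Tendsto (fun n => ⟪a n, w⟫_ℂ) (hyperfilter ℕ : Filter ℕ)
      (𝓝 ⟪u, w⟫_ℂ) := by
  have hC : 0 ≤ C := (norm_nonneg _).trans (ha 0)
  have h1 : ∀ w : G, ∃ z : ℂ, Tendsto (fun n => ⟪a n, w⟫_ℂ) (hyperfilter ℕ : Filter ℕ) (𝓝 z) ∧
      ‖z‖ ≤ C * ‖w‖ := by
    intro w
    apply lim_ex
    intro n
    exact (norm_inner_le_norm _ _).trans (mul_le_mul_of_nonneg_right (ha n) (norm_nonneg _))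
  choose ℓ h2 h3 using h1
  let L : G →ₗ[ℂ] ℂ :=
    { toFun := ℓ
      map_add' := by
        intro w w'
        refine tendsto_nhds_unique (h2 (w + w')) ?_
        have h4 := (h2 w).add (h2 w')
        refine h4.congr ?_
        intro n
        rw [inner_add_right]
      map_smul' := by
        intro c w
        refine tendsto_nhds_unique (h2 (c • w)) ?_
        have h4 := (h2 w).const_mul c
        refine h4.congr ?_
        intro n
        rw [inner_smul_right] }
  let F : G →L[ℂ] ℂ := L.mkContinuous C h3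
  refine ⟨(InnerProductSpace.toDual ℂ G).symm F, ?_, ?_⟩
  · rw [LinearIsometryEquiv.norm_map]
    exact LinearMap.mkContinuous_norm_le _ hC _
  · intro w
    rw [InnerProductSpace.toDual_symm_apply]
    exact h2 w

end Lim337

open Lim337 in
theorem lim : S_LIM := by
  intro G _ _ _ Φ hΦ
  have h1 : ∀ (x : G →L[ℂ] G) (v : G), ∃ u : G, ‖u‖ ≤ ‖x‖ * ‖v‖ ∧
      ∀ w, Tendsto (fun n => ⟪Φ n x v, w⟫_ℂ) (hyperfilter ℕ : Filter ℕ) (𝓝 ⟪u, w⟫_ℂ) := by
    intro x v
    apply vec_ex
    intro n
    exact ((Φ n x).le_opNorm v).trans (mul_le_mul_of_nonneg_right (hΦ n x) (norm_nonneg _))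
  choose u hu1 hu2 using h1
  have uniq : ∀ (x : G →L[ℂ] G) (v u' : G),
      (∀ w, Tendsto (fun n => ⟪Φ n x v, w⟫_ℂ) (hyperfilter ℕ : Filter ℕ) (𝓝 ⟪u', w⟫_ℂ)) →
      u x v = u' := by
    intro x v u' h
    refine ext_inner_right ℂ fun w => ?_
    exact tendsto_nhds_unique (hu2 x v w) (h w)
  let Lx : (G →L[ℂ] G) → (G →ₗ[ℂ] G) := fun x =>
    { toFun := u x
      map_add' := by
        intro v v'
        apply uniq
        intro w
        rw [inner_add_left]
        refine ((hu2 x v w).add (hu2 x v' w)).congr ?_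
        intro n
        rw [map_add, inner_add_left]
      map_smul' := by
        intro c v
        apply uniq
        intro w
        rw [RingHom.id_apply, inner_smul_left]
        refine ((hu2 x v w).const_mul _).congr ?_
        intro n
        rw [map_smul, inner_smul_left] }
  let Cx : (G →L[ℂ] G) → (G →L[ℂ] G) := fun x => (Lx x).mkContinuous ‖x‖ (hu1 x)
  have hCx : ∀ x v, Cx x v = u x v := fun x v => rfl
  let Ψ : (G →L[ℂ] G) →ₗ[ℂ] (G →L[ℂ] G) :=
    { toFun := Cx
      map_add' := by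
        intro x x'
        ext v
        rw [_root_.add_apply, hCx, hCx, hCx]
        apply uniq
        intro w
        rw [inner_add_left]
        refine ((hu2 x v w).add (hu2 x' v w)).congr ?_
        intro n
        rw [map_add, _root_.add_apply, inner_add_left]
      map_smul' := by
        intro c x
        ext v
        rw [RingHom.id_apply, _root_.smul_apply, hCx, hCx]
        apply uniq
        intro w
        rw [inner_smul_left]
        refine ((hu2 x v w).const_mul _).congr ?_
        intro n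
        rw [map_smul, _root_.smul_apply, inner_smul_left] }
  refine ⟨Ψ, ?_, ?_⟩
  · intro x
    exact LinearMap.mkContinuous_norm_le (Lx x) (norm_nonneg _) (hu1 x)
  · intro x v w
    have h2 := (Complex.continuous_conj.tendsto _).comp (hu2 x v w)
    have h3 : ∀ a : G, (starRingEnd ℂ) ⟪a, w⟫_ℂ = ⟪w, a⟫_ℂ := fun a => inner_conj_symm _ _
    rw [h3] at h2
    refine h2.congr ?_
    intro n
    exact h3 _

end Pool.Agent.H575.RSF
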