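import Mathlib
import Pool.Agent.H575.RSF.Stm
import Pool.Graph.R_seed8.H791R2.RS.T_THM
import Pool.Graph.R_seed8.H791R2.RS.T_DSEQ
import Pool.Graph.R_seed8.H791R2.RS.T_ADJ

/-! RSF-NRM and RSF-SEP (author helper909): the unitary `U` normalises the multiplications; the
Hilbert space is separable. -/

set_option autoImplicit false

open MeasureTheory Filter Set Topology
open scoped InnerProductSpace ENNReal

namespace Pool.Agent.H575.RSF

open Pool.Agent.H791R2.RS (Y E mu H IsO IsM InM opS opS' th th')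

theorem nrm (hA : Pool.Agent.H791R2.RS.S_ADJ) : S_NRM := by
  intro U hU A hM
  obtain ⟨φ, C, hφ, hC, hAφ⟩ := hM
  obtain ⟨hth, hth'⟩ := Pool.Agent.H791R2.RS.t_THM
  have q' := hth'.quasiMeasurePreserving
  have q := hth.quasiMeasurePreserving
  obtain ⟨h4, -, -⟩ := hA.2 U hU
  refine ⟨⟨fun y => φ (th' y), C, hφ.comp hth'.measurable, fun y => hC _, fun f => ?_⟩,
    ⟨fun y => φ (th y), C, hφ.comp hth.measurable, fun y => hC _, fun f => ?_⟩⟩
  · have e : (star U * A * U) f = star U (A (U f)) := rfl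
    rw [e]
    filter_upwards [h4 (A (U f)), q'.ae (hAφ (U f)), q'.ae (hU f)] with y h1 h2 h3
    rw [h1, h2]
    simp only [id_eq, ContinuousLinearMap.smul_apply, ContinuousLinearMap.one_apply]
    rw [h3, map_smul, Pool.Agent.H791R2.RS.opS'S, Pool.Agent.H791R2.RS.ADJ.th_th']
  · have e : (U * A * star U) f = U (A (star U f)) := rfl
    rw [e]
    filter_upwards [hU (A (star U f)), q.ae (hAφ (star U f)), q.ae (h4 f)] with y h1 h2 h3
    rw [h1, h2]
    simp only [id_eq, ContinuousLinearMap.smul_apply, ContinuousLinearMap.one_apply]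
    rw [h3, map_smul, Pool.Agent.H791R2.RS.opSS', Pool.Agent.H791R2.RS.ADJ.th'_th]

theorem sep : S_SEP := by
  have := Pool.Agent.H791R2.RS.DSEQ.sep_E
  have : Fact ((2 : ℝ≥0∞) ≠ ∞) := ⟨by norm_num⟩
  have : SecondCountableTopology H := inferInstance
  show TopologicalSpace.SeparableSpace H
  infer_instance

end Pool.Agent.H575.RSF
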