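import Mathlib
import Pool.Agent.H575.RSF.Stm

/-!
Project RSF (helper575): the statements `S_PAR` and `S_AVG` (helper694).
-/

set_option autoImplicit false

open MeasureTheory Filter Set Topology
open scoped InnerProductSpace ENNReal

namespace Pool.Agent.H575.RSF

namespace H694

section
variable {G : Type} [NormedAddCommGroup G] [InnerProductSpace ℂ G] [CompleteSpace G]

theorem inner_left_of_star {P : G →L[ℂ] G} (h : star P = P) (a b : G) :
    ⟪P a, b⟫_ℂ = ⟪a, P b⟫_ℂ := by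
  have h1 := ContinuousLinearMap.adjoint_inner_left P b a
  rw [← ContinuousLinearMap.star_eq_adjoint, h] at h1
  exact h1

omit [CompleteSpace G] in
/-- Pythagoras -/
theorem norm_sq_sum {ι : Type} [Fintype ι] (w : ι → G) (h : ∀ i j, i ≠ j → ⟪w i, w j⟫_ℂ = 0) :
    ‖∑ i, w i‖ ^ 2 = ∑ i, ‖w i‖ ^ 2 := by
  classical
  have h1 : (⟪∑ i, w i, ∑ i, w i⟫_ℂ : ℂ) = ∑ i, ((‖w i‖ ^ 2 : ℝ) : ℂ) := by
    rw [sum_inner]
    refine Finset.sum_congr rfl fun i _ => ?_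
    rw [inner_sum, Finset.sum_eq_single i]
    · rw [inner_self_eq_norm_sq_to_K]
      push_cast
      rfl
    · intro j _ hj
      exact h i j (Ne.symm hj)
    · intro hi
      exact absurd (Finset.mem_univ i) hi
  rw [inner_self_eq_norm_sq_to_K, ← Complex.ofReal_sum] at h1
  have h2 : ((‖∑ i, w i‖ ^ 2 : ℝ) : ℂ) = ((∑ i, ‖w i‖ ^ 2 : ℝ) : ℂ) := by
    rw [← h1]
    push_cast
    rfl
  exact_mod_cast h2

theorem sum_norm_sq {ι : Type} [Fintype ι] (P : ι → (G →L[ℂ] G)) (h1 : ∀ i, star (P i) = P i)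
    (h2 : ∀ i, P i * P i = P i) (h3 : ∑ i, P i = 1) (v : G) :
    ∑ i, ‖P i v‖ ^ 2 = ‖v‖ ^ 2 := by
  have h4 : ∀ i, ((‖P i v‖ ^ 2 : ℝ) : ℂ) = ⟪v, P i v⟫_ℂ := by
    intro i
    have h5 : ⟪P i v, P i v⟫_ℂ = ⟪v, P i v⟫_ℂ := by
      have h8 : P i (P i v) = P i v := congrArg (fun A : G →L[ℂ] G => A v) (h2 i)
      rw [inner_left_of_star (h1 i), h8]
    rw [← h5, inner_self_eq_norm_sq_to_K]
    push_cast
    rfl
  have h6 : ((∑ i, ‖P i v‖ ^ 2 : ℝ) : ℂ) = ((‖v‖ ^ 2 : ℝ) : ℂ) := by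
    rw [Complex.ofReal_sum, Finset.sum_congr rfl fun i _ => h4 i, ← inner_sum]
    have h7 : ∑ i, P i v = v := by
      have := congrArg (fun A : G →L[ℂ] G => A v) h3
      simpa using this
    rw [h7, inner_self_eq_norm_sq_to_K]
    push_cast
    rfl
  exact_mod_cast h6

theorem norm_le_one_of {U : G →L[ℂ] G} (h : star U * U = 1) : ‖U‖ ≤ 1 := by
  have h1 := CStarRing.norm_star_mul_self (x := U)
  rw [h] at h1
  have h2 : ‖(1 : G →L[ℂ] G)‖ ≤ 1 := ContinuousLinearMap.norm_id_le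
  rw [h1] at h2
  nlinarith [norm_nonneg U]

theorem norm_pow_le_one {U : G →L[ℂ] G} (h : ‖U‖ ≤ 1) (n : ℕ) : ‖U ^ n‖ ≤ 1 := by
  induction n with
  | zero =>
    rw [pow_zero]
    exact ContinuousLinearMap.norm_id_le
  | succ n ih =>
    rw [pow_succ]
    refine (norm_mul_le _ _).trans ?_
    calc ‖U ^ n‖ * ‖U‖ ≤ 1 * 1 := mul_le_mul ih h (norm_nonneg _) zero_le_one
      _ = 1 := one_mul 1

theorem norm_mul3_le {A B x : G →L[ℂ] G} (hA : ‖A‖ ≤ 1) (hB : ‖B‖ ≤ 1) : ‖A * x * B‖ ≤ ‖x‖ := by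
  calc ‖A * x * B‖ ≤ ‖A * x‖ * ‖B‖ := norm_mul_le _ _
    _ ≤ (‖A‖ * ‖x‖) * ‖B‖ := mul_le_mul_of_nonneg_right (norm_mul_le _ _) (norm_nonneg _)
    _ ≤ (1 * ‖x‖) * 1 := by
        apply mul_le_mul _ hB (norm_nonneg _) (by positivity)
        exact mul_le_mul_of_nonneg_right hA (norm_nonneg _)
    _ = ‖x‖ := by ring

end

end H694

theorem par : S_PAR := by
  intro G _ _ _ ι _ P h1 h2 h3 h4 x
  have hP : ∀ i (u : G), ‖P i u‖ ≤ ‖u‖ := by
    intro i u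
    have h5 := H694.sum_norm_sq P h1 h2 h4 u
    have h6 : ‖P i u‖ ^ 2 ≤ ∑ j, ‖P j u‖ ^ 2 :=
      Finset.single_le_sum (f := fun j => ‖P j u‖ ^ 2) (fun j _ => sq_nonneg _)
        (Finset.mem_univ i)
    rw [h5] at h6
    exact le_of_sq_le_sq h6 (norm_nonneg _)
  refine ContinuousLinearMap.opNorm_le_bound _ (norm_nonneg _) fun v => ?_
  have e1 : (∑ i, P i * x * P i) v = ∑ i, P i (x (P i v)) := by
    rw [sum_apply]
    rfl
  rw [e1]
  have hort : ∀ i j, i ≠ j → ⟪P i (x (P i v)), P j (x (P j v))⟫_ℂ = 0 := by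
    intro i j hij
    have h7 : P i (P j (x (P j v))) = 0 :=
      congrArg (fun A : G →L[ℂ] G => A (x (P j v))) (h3 i j hij)
    rw [H694.inner_left_of_star (h1 i), h7, inner_zero_right]
  have h5 := H694.norm_sq_sum (fun i => P i (x (P i v))) hort
  have h6 : ‖∑ i, P i (x (P i v))‖ ^ 2 ≤ (‖x‖ * ‖v‖) ^ 2 := by
    rw [h5, mul_pow, ← H694.sum_norm_sq P h1 h2 h4 v, Finset.mul_sum]
    refine Finset.sum_le_sum fun i _ => ?_
    rw [← mul_pow]
    refine pow_le_pow_left₀ (norm_nonneg _) ?_ 2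
    exact (hP i _).trans (x.le_opNorm _)
  exact le_of_sq_le_sq h6 (by positivity)

theorem avg : S_AVG := by
  intro G _ _ _ U h1 h2 N x
  have hU : ‖U‖ ≤ 1 := H694.norm_le_one_of h1
  have hU' : ‖star U‖ ≤ 1 := by rw [norm_star]; exact hU
  have hN : ‖((N : ℂ) + 1)⁻¹‖ = ((N : ℝ) + 1)⁻¹ := by
    rw [norm_inv]
    have : ((N : ℂ) + 1) = (((N : ℝ) + 1 : ℝ) : ℂ) := by push_cast; rfl
    rw [this, Complex.norm_real, Real.norm_eq_abs, abs_of_pos (by positivity)]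
  have hN0 : (0 : ℝ) < (N : ℝ) + 1 := by positivity
  constructor
  · rw [norm_smul, hN]
    have h3 : ‖∑ n ∈ Finset.range (N + 1), U ^ n * x * (star U) ^ n‖ ≤ ((N : ℝ) + 1) * ‖x‖ := by
      refine (norm_sum_le _ _).trans ?_
      refine (Finset.sum_le_sum fun n _ => H694.norm_mul3_le (H694.norm_pow_le_one hU n)
        (H694.norm_pow_le_one hU' n)).trans ?_
      rw [Finset.sum_const, Finset.card_range, nsmul_eq_mul]
      push_cast
      exact le_rfl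
    calc ((N : ℝ) + 1)⁻¹ * ‖∑ n ∈ Finset.range (N + 1), U ^ n * x * (star U) ^ n‖
        ≤ ((N : ℝ) + 1)⁻¹ * (((N : ℝ) + 1) * ‖x‖) := by gcongr
      _ = ‖x‖ := by field_simp
  · have e1 : U * (((N : ℂ) + 1)⁻¹ • ∑ n ∈ Finset.range (N + 1), U ^ n * x * (star U) ^ n) -
        (((N : ℂ) + 1)⁻¹ • ∑ n ∈ Finset.range (N + 1), U ^ n * x * (star U) ^ n) * U =
        ((N : ℂ) + 1)⁻¹ • (U ^ (N + 1) * x * ((star U) ^ (N + 1) * U) -
          U ^ 0 * x * ((star U) ^ 0 * U)) := by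
      rw [mul_smul_comm, smul_mul_assoc, ← smul_sub, Finset.mul_sum, Finset.sum_mul,
        ← Finset.sum_sub_distrib]
      congr 1
      rw [← Finset.sum_range_sub (fun n => U ^ n * x * ((star U) ^ n * U))]
      refine Finset.sum_congr rfl fun n _ => ?_
      have e2 : (star U) ^ (n + 1) * U = (star U) ^ n := by
        rw [pow_succ, mul_assoc, h1, mul_one]
      rw [e2]
      have e3 : U * (U ^ n * x * (star U) ^ n) = U ^ (n + 1) * x * (star U) ^ n := by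
        rw [pow_succ']
        simp only [mul_assoc]
      rw [e3, mul_assoc (U ^ n * x)]
    rw [e1, norm_smul, hN]
    have h5 : ∀ n, ‖U ^ n * x * ((star U) ^ n * U)‖ ≤ ‖x‖ := by
      intro n
      refine H694.norm_mul3_le (H694.norm_pow_le_one hU n) ?_
      refine (norm_mul_le _ _).trans ?_
      calc ‖(star U) ^ n‖ * ‖U‖ ≤ 1 * 1 :=
            mul_le_mul (H694.norm_pow_le_one hU' n) hU (norm_nonneg _) zero_le_one
        _ = 1 := one_mul 1
    have h6 : ‖U ^ (N + 1) * x * ((star U) ^ (N + 1) * U) - U ^ 0 * x * ((star U) ^ 0 * U)‖ ≤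
        2 * ‖x‖ := by
      refine (norm_sub_le _ _).trans ?_
      have := h5 (N + 1)
      have := h5 0
      linarith
    calc ((N : ℝ) + 1)⁻¹ * _ ≤ ((N : ℝ) + 1)⁻¹ * (2 * ‖x‖) := by gcongr
      _ = 2 * ‖x‖ / ((N : ℝ) + 1) := by rw [inv_mul_eq_div]

end Pool.Agent.H575.RSF
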