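import Mathlib
import Pool.Agent.H575.RSF.Stm
import Pool.Agent.H575.RSF.T_LIM
import Pool.Agent.H575.RSF.T_NRM
import Pool.Agent.H575.RSF.T_PAR
import Pool.Agent.H575.RSF.T_EK
import Pool.Agent.H575.RSF.T_GEN

/-!
Project RSF (helper575): the factor is injective (assembly).
-/

set_option autoImplicit false

open MeasureTheory Filter Set Topology
open scoped InnerProductSpace ENNReal

namespace Pool.Agent.H575.RSF

open Pool.Agent.H791R2.RS (Y E mu H IsO IsM InM opS opS' th th' S_OPS S_ADJ)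

/-- limits along the ultrafilter of operators which asymptotically commute with `A` -/
theorem comm_of_tendsto {G : Type} [NormedAddCommGroup G] [InnerProductSpace ℂ G]
    [CompleteSpace G] {f : ℕ → G →L[ℂ] G} {L A : G →L[ℂ] G}
    (h : ∀ v w, Tendsto (fun n => ⟪w, f n v⟫_ℂ) (hyperfilter ℕ : Filter ℕ) (𝓝 ⟪w, L v⟫_ℂ))
    (hA : Tendsto (fun n => ‖A * f n - f n * A‖) atTop (𝓝 0)) : A * L = L * A := by
  ext v
  refine ext_inner_left ℂ fun w => ?_
  have h1 : Tendsto (fun n => ⟪w, (A * f n) v⟫_ℂ) (hyperfilter ℕ : Filter ℕ)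
      (𝓝 ⟪w, (A * L) v⟫_ℂ) := by
    have := h v (ContinuousLinearMap.adjoint A w)
    simpa [mul_apply_eq_comp, ContinuousLinearMap.adjoint_inner_left] using this
  have h2 : Tendsto (fun n => ⟪w, (f n * A) v⟫_ℂ) (hyperfilter ℕ : Filter ℕ)
      (𝓝 ⟪w, (L * A) v⟫_ℂ) := by
    simpa [ContinuousLinearMap.mul_apply] using h (A v) w
  have h3 : Tendsto (fun n => ⟪w, (A * f n) v⟫_ℂ - ⟪w, (f n * A) v⟫_ℂ) atTop (𝓝 0) := by
    have h4 : Tendsto (fun n => ‖w‖ * (‖A * f n - f n * A‖ * ‖v‖)) atTop (𝓝 0) := by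
      simpa using (hA.mul_const ‖v‖).const_mul ‖w‖
    refine squeeze_zero_norm (fun n => ?_) h4
    rw [← inner_sub_right, ← ContinuousLinearMap.sub_apply]
    refine (norm_inner_le_norm _ _).trans ?_
    exact mul_le_mul_of_nonneg_left (ContinuousLinearMap.le_opNorm _ _) (norm_nonneg _)
  have h5 := h3.mono_left (Nat.hyperfilter_le_atTop)
  have h6 := tendsto_nhds_unique h5 (h1.sub h2)
  exact (sub_eq_zero.1 h6.symm)

/-- powers of the unitary normalise the commutant of the multiplications -/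
theorem conj_comm (hA : S_ADJ) {U : H →L[ℂ] H} (hU : IsO U (fun _ => opS) th)
    {x : H →L[ℂ] H} (hx : ∀ A, IsM A → A * x = x * A) (n : ℕ) :
    ∀ A, IsM A → A * (U ^ n * x * (star U) ^ n) = (U ^ n * x * (star U) ^ n) * A := by
  obtain ⟨-, hU1, hU2⟩ := (hA.2 U hU)
  induction n with
  | zero => simpa using hx
  | succ n ih =>
    intro A hM
    have e1 : U ^ (n + 1) * x * star U ^ (n + 1) = U * (U ^ n * x * star U ^ n) * star U := by
      rw [pow_succ' U, pow_succ (star U)]
      simp only [mul_assoc]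
    rw [e1]
    set z := U ^ n * x * star U ^ n with hz
    have h1 := ih _ (nrm hA U hU A hM).1
    calc A * (U * z * star U) = (U * star U) * A * (U * z * star U) := by rw [hU2, one_mul]
      _ = U * ((star U * A * U) * z) * star U := by simp only [mul_assoc]
      _ = U * (z * (star U * A * U)) * star U := by rw [h1]
      _ = (U * z * star U) * A * (U * star U) := by simp only [mul_assoc]
      _ = (U * z * star U) * A := by rw [hU2, mul_one]

/-- the averages as a linear map -/
noncomputable def avgL (U : H →L[ℂ] H) (N : ℕ) : (H →L[ℂ] H) →ₗ[ℂ] (H →L[ℂ] H) where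
  toFun x := ((N : ℂ) + 1)⁻¹ • ∑ n ∈ Finset.range (N + 1), U ^ n * x * (star U) ^ n
  map_add' x y := by
    simp only [mul_add, add_mul, Finset.sum_add_distrib, smul_add]
  map_smul' c x := by
    simp only [mul_smul_comm, smul_mul_assoc, ← Finset.smul_sum, RingHom.id_apply]
    rw [smul_comm]

theorem inj (hO : S_OPS) (hA : S_ADJ) : S_INJ := by
  classical
  -- first step: projection onto the commutant of the multiplications
  choose Φ hΦ1 hΦ2 hΦ3 using ek par hO
  obtain ⟨Ψ, hΨ1, hΨ2⟩ := lim H Φ hΦ1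
  have hcomm : ∀ x A, IsM A → A * Ψ x = Ψ x * A := by
    intro x
    refine gen hO (Ψ x) fun k c A hAk => ?_
    refine comm_of_tendsto (f := fun n => Φ n x) (fun v w => hΨ2 x v w) ?_
    refine tendsto_const_nhds.congr' ?_
    filter_upwards [eventually_ge_atTop k] with n hn
    rw [hΦ3 n x k hn c A hAk, sub_self, norm_zero]
  have hfix : ∀ x, (∀ A, IsM A → A * x = x * A) → Ψ x = x := by
    intro x hx
    refine ContinuousLinearMap.ext fun v => ext_inner_left ℂ fun w => ?_
    have h1 := hΨ2 x v w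
    have h2 : (fun n => ⟪w, Φ n x v⟫_ℂ) = fun _ => ⟪w, x v⟫_ℂ := by
      funext n; rw [hΦ2 n x hx]
    rw [h2] at h1
    exact (tendsto_nhds_unique h1 tendsto_const_nhds)
  -- second step
  obtain ⟨U, hU⟩ := hO.2.2.1
  obtain ⟨hstar, hU1, hU2⟩ := hA.2 U hU
  obtain ⟨Θ, hΘ1, hΘ2⟩ := lim H (avgL U) (fun n x => (avg H U hU1 hU2 n x).1)
  have hUuniq : ∀ U', IsO U' (fun _ => opS) th → U' = U := by
    intro U' hU'
    ext1 f
    refine Lp.ext ?_
    exact (hU' f).trans (hU f).symm
  refine ⟨Θ ∘ₗ Ψ, fun x => (hΘ1 _).trans (hΨ1 x), fun x => ⟨fun A hM => ?_, fun U' hU' => ?_⟩,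
    fun x hx => ?_⟩
  · refine comm_of_tendsto (f := fun n => avgL U n (Ψ x)) (fun v w => hΘ2 (Ψ x) v w) ?_
    refine tendsto_const_nhds.congr fun n => ?_
    have : A * avgL U n (Ψ x) = avgL U n (Ψ x) * A := by
      simp only [avgL, LinearMap.coe_mk, AddHom.coe_mk, mul_smul_comm, smul_mul_assoc,
        Finset.mul_sum, Finset.sum_mul]
      congr 1
      exact Finset.sum_congr rfl fun k _ => conj_comm hA hU (hcomm x) k A hM
    rw [this, sub_self, norm_zero]
  · rw [hUuniq U' hU']
    refine comm_of_tendsto (f := fun n => avgL U n (Ψ x)) (fun v w => hΘ2 (Ψ x) v w) ?_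
    have h1 : Tendsto (fun n : ℕ => 2 * ‖Ψ x‖ / ((n : ℝ) + 1)) atTop (𝓝 0) :=
      tendsto_const_div_atTop_nhds_zero_nat (2 * ‖Ψ x‖) |>.comp (tendsto_add_atTop_nat 1) |>.congr
        (fun n => by simp)
    exact squeeze_zero (fun n => norm_nonneg _) (fun n => (avg H U hU1 hU2 n (Ψ x)).2) h1
  · have e1 : Ψ x = x := hfix x hx.1
    rw [LinearMap.comp_apply, e1]
    refine ContinuousLinearMap.ext fun v => ext_inner_left ℂ fun w => ?_
    have h1 := hΘ2 x v w
    have hc : U * x = x * U := hx.2 U hU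
    have hp : ∀ n, U ^ n * x * star U ^ n = x := by
      intro n
      have h2 : U ^ n * x = x * U ^ n := (Commute.pow_left (show Commute U x from hc) n).eq
      have h3 : U ^ n * star U ^ n = 1 := by
        have hcu : Commute U (star U) := by
          show U * star U = star U * U
          rw [hU1, hU2]
        rw [← hcu.mul_pow, hU2, one_pow]
      rw [h2, mul_assoc, h3, mul_one]
    have h2 : (fun n => ⟪w, avgL U n x v⟫_ℂ) = fun _ => ⟪w, x v⟫_ℂ := by
      funext n
      have : avgL U n x = x := by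
        simp only [avgL, LinearMap.coe_mk, AddHom.coe_mk, hp, Finset.sum_const,
          Finset.card_range]
        rw [← Nat.cast_smul_eq_nsmul ℂ, smul_smul]
        have : ((n : ℂ) + 1) ≠ 0 := by exact_mod_cast Nat.succ_ne_zero n
        push_cast
        rw [inv_mul_cancel₀ this, one_smul]
      rw [this]
    rw [h2] at h1
    exact tendsto_nhds_unique h1 tendsto_const_nhds

end Pool.Agent.H575.RSF
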